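import Mathlib
import Pool.Agent.H72.Cardy.Lim
import Pool.Agent.H72.Cardy.Conf

set_option autoImplicit false

/-! Critical bond percolation on `ℤ²` (every edge open with probability `1/2`, independently) in the
L-shaped domain `D m n`, `m ≤ n`, made of the vertices `u = (x, y)` with `-1 ≤ x + y`, with
`x + y ≤ 2n` if `y ≤ x` (the wide part) and `x + y ≤ 2m` if `x < y` (the narrow part). After the
similarity `(x, y) ↦ ((x + y) + i (y - x)) / (2n)` this is a discretisation of the L-shaped strip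
`L r = {0 < Re z < 1, and Re z < r if Im z ≥ 0}`, `r = m / n`.

`p m n` is the probability that the right side `{x + y = 2n, y ≤ x}` of the wide part is connected,
by open edges of the domain, to the right side `{x + y = 2m, x ≤ y}` of the narrow part.

The configuration `ω` gives the state of the edge from `u` to `u + (1,0)` (index `(u, true)`) and of
the edge from `u` to `u + (0,1)` (index `(u, false)`); `μ` is the law under which the edges are open
(`ω e = true`) independently with probability `1/2`; `G m n ω` is the graph of the open edges of the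
domain. `F` is Cardy's function of the cross-ratio. -/

namespace Pool.Agent.Results.MP_fe58d8_pr.CardyLStrip

open MeasureTheory Filter Topology

theorem result
    (μ : Measure ((ℤ × ℤ) × Bool → Bool))
    (hμ : μ = Measure.infinitePi (fun _ => (PMF.uniformOfFintype Bool).toMeasure))
    (D : ℕ → ℕ → Set (ℤ × ℤ))
    (hD : ∀ m n, D m n = {u | -1 ≤ u.1 + u.2 ∧ (u.2 ≤ u.1 → u.1 + u.2 ≤ 2 * (n : ℤ)) ∧
      (u.1 < u.2 → u.1 + u.2 ≤ 2 * (m : ℤ))})
    (G : ℕ → ℕ → ((ℤ × ℤ) × Bool → Bool) → SimpleGraph (ℤ × ℤ))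
    (hG : ∀ m n ω, G m n ω = SimpleGraph.fromRel (fun u v => u ∈ D m n ∧ v ∈ D m n ∧
      ((v = (u.1 + 1, u.2) ∧ ω (u, true) = true) ∨
        (v = (u.1, u.2 + 1) ∧ ω (u, false) = true))))
    (p : ℕ → ℕ → ℝ)
    (hp : ∀ m n, p m n = (μ {ω | ∃ u v : ℤ × ℤ, u.1 + u.2 = 2 * (n : ℤ) ∧ u.2 ≤ u.1 ∧
      v.1 + v.2 = 2 * (m : ℤ) ∧ v.1 ≤ v.2 ∧ (G m n ω).Reachable u v}).toReal)
    (L : ℝ → Set ℂ)
    (hL : ∀ r, L r = {z | 0 < z.re ∧ z.re < 1 ∧ (0 ≤ z.im → z.re < r)})
    (F : ℝ → ℝ)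
    (hF : ∀ x, F x = Real.Gamma (2 / 3) / Real.Gamma (1 / 3) ^ 2 *
      ∫ s in (0 : ℝ)..x, s ^ (-(2 / 3) : ℝ) * (1 - s) ^ (-(2 / 3) : ℝ)) :
    -- exact value for all widths
    (∀ m n, m ≤ n → p m n = 1 - 2 * ∑ j ∈ Finset.Ioc (2 * m + 1) (2 * n + 1),
      (-1 : ℝ) ^ j * ((2 * n + 1 + j).choose (2 * j)) * ((2 * j - 1).choose (j + (2 * m + 1))) *
        ∏ i ∈ Finset.range j, ((3 * i + 1 : ℝ) / (3 * i + 2))) ∧
    -- Cardy's formula in the scaling limit
    (∀ (r : ℝ) (m n : ℕ → ℕ), (∀ j, m j ≤ n j) → Tendsto n atTop atTop →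
      Tendsto (fun j => (m j : ℝ) / n j) atTop (𝓝 r) →
      Tendsto (fun j => p (m j) (n j)) atTop (𝓝 (F (r ^ 2)))) ∧
    -- `r ^ 2` is the cross-ratio of the four marked points of `L r`
    (∀ r : ℝ, 0 < r → r < 1 → ∃ f : ℂ → ℂ, DifferentiableOn ℂ f {w | 0 < w.im} ∧
      Set.BijOn f {w | 0 < w.im} (L r) ∧
      Tendsto (fun w => (f w).im) (cocompact ℂ ⊓ 𝓟 {w | 0 < w.im}) atBot ∧
      Tendsto f (𝓝[{w | 0 < w.im}] (-1 : ℂ)) (𝓝 1) ∧
      Tendsto f (𝓝[{w | 0 < w.im}] (-(r : ℂ) ^ 2)) (𝓝 (r : ℂ)) ∧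
      Tendsto (fun w => (f w).im) (𝓝[{w | 0 < w.im}] (0 : ℂ)) atTop) := by
  subst hμ
  obtain rfl : D = fun m n => {u | Pool.Agent.H72.CardyP.InL m n u} :=
    funext fun m => funext fun n => hD m n
  obtain rfl : G = Pool.Agent.H72.CardyP.lGraph :=
    funext fun m => funext fun n => funext fun ω => hG m n ω
  have hp' : ∀ m n, p m n =
      (Pool.Agent.H65.Perc.planeMeasure {ω | Pool.Agent.H72.CardyP.LCross m n ω}).toReal := hp
  refine ⟨?_, ?_, ?_⟩
  · intro m n h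
    rw [hp', Pool.Agent.H72.CardyP.value m n h]
    rfl
  · intro r m n hmn hn hr
    simp only [hp', hF]
    exact Pool.Agent.H72.CardyP.limit hmn hn hr
  · intro r h0 h1
    rw [hL]
    exact Pool.Agent.H72.CardyC.exists_conf r h0 h1

end Pool.Agent.Results.MP_fe58d8_pr.CardyLStrip
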